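import Pool.Agent.Lib.MP_293bbf_nt.A2

/-!
# MP_b8808f_nt: a positive proportion of the integers has no admissible prime near either end

`lem`: if `p ≤ Y` is a prime without another prime within `K` and `3 π(p) - 1` is composite, then
all `n` in `(p + B, p + K]` are good.  `main`: choice of the parameters (`close_pairs` and the prime
number theorem).
-/

set_option autoImplicit false

open Finset

namespace MPb8808f

theorem few : ∃ M0 : ℕ, ∀ M : ℕ, M0 ≤ M → (Nat.primeCounting (3 * M) : ℝ) ≤ M / 4 := by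
  obtain ⟨X1, hX1⟩ := MP293bbf.pnt_upper_lower
  refine ⟨max ⌈X1⌉₊ ⌈Real.exp 24⌉₊, fun M hM => ?_⟩
  have h1 : X1 ≤ (M : ℝ) :=
    (Nat.le_ceil X1).trans (by exact_mod_cast (le_max_left _ _).trans hM)
  have h2 : Real.exp 24 ≤ (M : ℝ) :=
    (Nat.le_ceil _).trans (by exact_mod_cast (le_max_right _ _).trans hM)
  have hM0 : (0 : ℝ) < M := (Real.exp_pos _).trans_le h2
  have h3 := (hX1 (3 * M) (by linarith)).2
  have h4 : ⌊(3 * M : ℝ)⌋₊ = 3 * M := by
    have h : (3 * M : ℝ) = ((3 * M : ℕ) : ℝ) := by push_cast; ring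
    rw [h, Nat.floor_natCast]
  rw [h4] at h3
  have h5 : 24 ≤ Real.log (3 * M) := by
    rw [Real.le_log_iff_exp_le (by positivity)]
    linarith
  refine h3.trans ?_
  rw [show (2 : ℝ) * (3 * M / Real.log (3 * M)) = 6 * M / Real.log (3 * M) by ring,
    div_le_iff₀ (by linarith)]
  nlinarith

theorem pc_prime {p : ℕ} (hp : p.Prime) :
    Nat.primeCounting p = Nat.count Nat.Prime p + 1 := by
  rw [Nat.primeCounting, Nat.primeCounting', Nat.count_succ, if_pos hp]

theorem pc_inj {p q : ℕ} (hp : p.Prime) (hq : q.Prime)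
    (h : Nat.primeCounting p = Nat.primeCounting q) : p = q := by
  have h1 := pc_prime hp
  have h2 := pc_prime hq
  exact Nat.count_injective hp hq (by omega)

theorem pc_const {p m : ℕ} (hpm : p ≤ m) (h : ∀ r, p < r → r ≤ m → ¬ r.Prime) :
    Nat.primeCounting m = Nat.primeCounting p := by
  induction m, hpm using Nat.le_induction with
  | base => rfl
  | succ m hm ih =>
    have h1 := ih fun r h1 h2 => h r h1 (by omega)
    rw [← h1, Nat.primeCounting, Nat.primeCounting', Nat.primeCounting, Nat.primeCounting',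
      Nat.count_succ, if_neg (h (m + 1) (by omega) le_rfl), add_zero]

theorem lem (Y N : ℕ) (K B : ℝ) (hK : 0 ≤ K) (hN : (Y : ℝ) + K ≤ N)
    (h1 : (({p : ℕ | p.Prime ∧ (p : ℝ) ≤ Y ∧ ∃ q : ℕ, q.Prime ∧ q ≠ p ∧
      |(q : ℝ) - p| ≤ K}.ncard : ℕ) : ℝ) ≤ Nat.primeCounting Y / 4)
    (h2 : (Nat.primeCounting (3 * Nat.primeCounting Y) : ℝ) ≤ Nat.primeCounting Y / 4)
    (hB : 0 ≤ B) :
    (Nat.primeCounting Y / 2 : ℝ) * (K - B - 1) ≤ ({n : ℕ | 1 ≤ n ∧ n ≤ N ∧
      (∀ q : ℕ, q < n → (3 * Nat.primeCounting (n - q) - 1).Prime → B < q) ∧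
      (∀ p : ℕ, p.Prime → p < n → B < (n : ℝ) - p)}.ncard : ℝ) := by
  classical
  set P : ℕ := Nat.primeCounting Y with hP
  set S0 : Finset ℕ := (range (Y + 1)).filter Nat.Prime with hS0
  have cS0 : S0.card = P := by
    rw [hP, Nat.primeCounting, Nat.primeCounting', Nat.count_eq_card_filter_range]
  set S1 := S0.filter (fun p => ∃ q : ℕ, q.Prime ∧ q ≠ p ∧ |(q : ℝ) - p| ≤ K) with hS1
  set S2 := S0.filter (fun p => (3 * Nat.primeCounting p - 1).Prime) with hS2
  have mS0 : ∀ p ∈ S0, p.Prime ∧ p ≤ Y := by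
    intro p hp
    rw [hS0, mem_filter, mem_range] at hp
    exact ⟨hp.2, by omega⟩
  have cS1 : (S1.card : ℝ) ≤ P / 4 := by
    refine le_trans ?_ h1
    have hsub : (S1 : Set ℕ) ⊆ {p : ℕ | p.Prime ∧ (p : ℝ) ≤ Y ∧ ∃ q : ℕ, q.Prime ∧ q ≠ p ∧
        |(q : ℝ) - p| ≤ K} := by
      intro p hp
      rw [mem_coe, hS1, mem_filter] at hp
      exact ⟨(mS0 p hp.1).1, by exact_mod_cast (mS0 p hp.1).2, hp.2⟩
    have hfin : {p : ℕ | p.Prime ∧ (p : ℝ) ≤ Y ∧ ∃ q : ℕ, q.Prime ∧ q ≠ p ∧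
        |(q : ℝ) - p| ≤ K}.Finite :=
      (Set.finite_Iic Y).subset fun p hp => by
        have := hp.2.1
        exact Set.mem_Iic.mpr (by exact_mod_cast this)
    have h3 := Set.ncard_le_ncard hsub hfin
    rw [Set.ncard_coe_finset] at h3
    exact_mod_cast h3
  have cS2 : (S2.card : ℝ) ≤ P / 4 := by
    refine le_trans ?_ h2
    have h3 : S2.card ≤ ((range (3 * P + 1)).filter Nat.Prime).card := by
      refine card_le_card_of_injOn (fun p => 3 * Nat.primeCounting p - 1) ?_ ?_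
      · intro p hp
        rw [mem_coe, hS2, mem_filter] at hp
        have h4 := Nat.monotone_primeCounting (mS0 p hp.1).2
        rw [mem_coe, mem_filter, mem_range]
        refine ⟨?_, hp.2⟩
        show 3 * Nat.primeCounting p - 1 < 3 * P + 1
        omega
      · intro p hp q hq h
        rw [mem_coe, hS2, mem_filter] at hp hq
        have h4 := pc_prime (mS0 p hp.1).1
        have h5 := pc_prime (mS0 q hq.1).1
        refine pc_inj (mS0 p hp.1).1 (mS0 q hq.1).1 ?_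
        simp only at h
        omega
    have h4 : ((range (3 * P + 1)).filter Nat.Prime).card = Nat.primeCounting (3 * P) := by
      rw [Nat.primeCounting, Nat.primeCounting', Nat.count_eq_card_filter_range]
    rw [h4] at h3
    exact_mod_cast h3
  set G := S0 \ (S1 ∪ S2) with hG
  have cG : (P : ℝ) / 2 ≤ G.card := by
    have h3 := le_card_sdiff (S1 ∪ S2) S0
    have h4 := card_union_le S1 S2
    have h5 : P ≤ G.card + S1.card + S2.card := by
      rw [← hG] at h3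
      omega
    have h6 : (P : ℝ) ≤ G.card + S1.card + S2.card := by exact_mod_cast h5
    linarith
  have mG : ∀ p ∈ G, p.Prime ∧ p ≤ Y ∧ (∀ q : ℕ, q.Prime → q ≠ p → K < |(q : ℝ) - p|) ∧
      ¬ (3 * Nat.primeCounting p - 1).Prime := by
    intro p hp
    rw [hG, mem_sdiff, mem_union, not_or] at hp
    obtain ⟨h3, h4, h5⟩ := hp
    refine ⟨(mS0 p h3).1, (mS0 p h3).2, fun q hq hqp => ?_, fun h => ?_⟩
    · by_contra hc
      exact h4 (by rw [hS1, mem_filter]; exact ⟨h3, q, hq, hqp, not_lt.mp hc⟩)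
    · exact h5 (by rw [hS2, mem_filter]; exact ⟨h3, h⟩)
  set b := ⌊B⌋₊ with hb
  set h := ⌊K⌋₊ with hh
  have mj : ∀ j ∈ Ioc b h, B < j ∧ (j : ℝ) ≤ K := by
    intro j hj
    rw [mem_Ioc] at hj
    exact ⟨Nat.lt_of_floor_lt hj.1, (Nat.le_floor_iff hK).mp hj.2⟩
  have np : ∀ p ∈ G, ∀ j ∈ Ioc b h, ∀ r, p < r → r ≤ p + j → ¬ r.Prime := by
    intro p hp j hj r hr1 hr2 hr
    have h3 := (mG p hp).2.2.1 r hr (by omega)
    have h4 : (p : ℝ) < r := by exact_mod_cast hr1
    have h5 : (r : ℝ) ≤ p + j := by exact_mod_cast hr2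
    rw [abs_of_pos (by linarith)] at h3
    have h6 := (mj j hj).2
    linarith
  have hinj : Set.InjOn (fun x : ℕ × ℕ => x.1 + x.2) (G ×ˢ Ioc b h : Finset (ℕ × ℕ)) := by
    rintro ⟨p, j⟩ hx ⟨p', j'⟩ hx' he
    rw [mem_coe, mem_product] at hx hx'
    simp only at hx hx' he
    have h3 : p = p' := by
      rcases lt_trichotomy p p' with h4 | h4 | h4
      · exact absurd (mG p' hx'.1).1 (np p hx.1 j hx.2 p' h4 (by omega))
      · exact h4
      · exact absurd (mG p hx.1).1 (np p' hx'.1 j' hx'.2 p h4 (by omega))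
    subst h3
    have h4 : j = j' := by omega
    rw [h4]
  set T := (G ×ˢ Ioc b h).image (fun x : ℕ × ℕ => x.1 + x.2) with hT
  have cT : T.card = G.card * (h - b) := by
    rw [hT, card_image_of_injOn hinj, card_product, Nat.card_Ioc]
  have hsub : (T : Set ℕ) ⊆ {n : ℕ | 1 ≤ n ∧ n ≤ N ∧
      (∀ q : ℕ, q < n → (3 * Nat.primeCounting (n - q) - 1).Prime → B < q) ∧
      (∀ p : ℕ, p.Prime → p < n → B < (n : ℝ) - p)} := by
    intro n hn
    rw [mem_coe, hT, mem_image] at hn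
    obtain ⟨⟨p, j⟩, hx, rfl⟩ := hn
    rw [mem_product] at hx
    obtain ⟨hp, hj⟩ := hx
    simp only at hp hj ⊢
    obtain ⟨g1, g2, g3, g4⟩ := mG p hp
    obtain ⟨j1, j2⟩ := mj j hj
    have g5 := g1.two_le
    have g6 : (p : ℝ) ≤ Y := by exact_mod_cast g2
    refine ⟨by omega, ?_, fun q hq hq2 => ?_, fun r hr hr2 => ?_⟩
    · have h7 : ((p + j : ℕ) : ℝ) ≤ N := by push_cast; linarith
      exact_mod_cast h7
    · by_contra hc
      have h7 : (q : ℝ) < j := by linarith [not_lt.mp hc]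
      have h8 : q < j := by exact_mod_cast h7
      have h9 : Nat.primeCounting (p + j - q) = Nat.primeCounting p :=
        pc_const (by omega) fun r r1 r2 => np p hp j hj r r1 (by omega)
      rw [h9] at hq2
      exact g4 hq2
    · have h7 : r ≤ p := by
        by_contra hc
        exact np p hp j hj r (by omega) (by omega) hr
      have h8 : (r : ℝ) ≤ p := by exact_mod_cast h7
      push_cast
      linarith
  have hfin : {n : ℕ | 1 ≤ n ∧ n ≤ N ∧
      (∀ q : ℕ, q < n → (3 * Nat.primeCounting (n - q) - 1).Prime → B < q) ∧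
      (∀ p : ℕ, p.Prime → p < n → B < (n : ℝ) - p)}.Finite :=
    (Set.finite_Iic N).subset fun n hn => Set.mem_Iic.mpr hn.2.1
  have h3 := Set.ncard_le_ncard hsub hfin
  rw [Set.ncard_coe_finset, cT] at h3
  have h4 : ((G.card * (h - b) : ℕ) : ℝ) ≤ ({n : ℕ | 1 ≤ n ∧ n ≤ N ∧
      (∀ q : ℕ, q < n → (3 * Nat.primeCounting (n - q) - 1).Prime → B < q) ∧
      (∀ p : ℕ, p.Prime → p < n → B < (n : ℝ) - p)}.ncard : ℝ) := by exact_mod_cast h3
  refine le_trans ?_ h4
  have h5 : (h : ℝ) ≤ ((h - b : ℕ) : ℝ) + b := by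
    have : h ≤ (h - b) + b := by omega
    exact_mod_cast this
  have h6 : K < h + 1 := Nat.lt_floor_add_one K
  have h7 : (b : ℝ) ≤ B := Nat.floor_le hB
  have h8 : K - B - 1 ≤ ((h - b : ℕ) : ℝ) := by linarith
  have h9 : (0 : ℝ) ≤ (P : ℝ) / 2 := by positivity
  push_cast
  calc (P : ℝ) / 2 * (K - B - 1) ≤ (P : ℝ) / 2 * ((h - b : ℕ) : ℝ) :=
        mul_le_mul_of_nonneg_left h8 h9
    _ ≤ (G.card : ℝ) * ((h - b : ℕ) : ℝ) := mul_le_mul_of_nonneg_right cG (Nat.cast_nonneg _)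

theorem main : ∃ c : ℝ, 0 < c ∧ ∃ N₀ : ℕ, ∀ N : ℕ, N₀ ≤ N →
    c * N ≤ ({n : ℕ | 1 ≤ n ∧ n ≤ N ∧
      (∀ q : ℕ, q < n → (3 * Nat.primeCounting (n - q) - 1).Prime → c * Real.log N < q) ∧
      (∀ p : ℕ, p.Prime → p < n → c * Real.log N < (n : ℝ) - p)}.ncard : ℝ) := by
  obtain ⟨C, X0, hC, hclose⟩ := MP293bbf.close_pairs
  obtain ⟨X1, hX1⟩ := MP293bbf.pnt_upper_lower
  obtain ⟨M0, hM0⟩ := few
  set κ : ℝ := min 1 (1 / (4 * C)) with hκ
  have k0 : 0 < κ := lt_min one_pos (by positivity)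
  have k1 : κ ≤ 1 := min_le_left _ _
  have k2 : C * κ ≤ 1 / 4 := by
    have h := min_le_right (1 : ℝ) (1 / (4 * C))
    calc C * κ ≤ C * (1 / (4 * C)) := mul_le_mul_of_nonneg_left h hC.le
      _ = 1 / 4 := by field_simp
  obtain ⟨Z0, hZ0⟩ := Filter.eventually_atTop.mp
    (Nat.tendsto_primeCounting.eventually (Filter.eventually_ge_atTop M0))
  set Y0 : ℕ := max (max (max ⌈X0⌉₊ ⌈X1⌉₊) (max ⌈Real.exp (3 / κ)⌉₊ 3)) Z0 with hY0
  refine ⟨κ / 24, by positivity, 2 * Y0 + 1, fun N hN => ?_⟩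
  set Y : ℕ := N / 2 with hY
  have hYY : Y0 ≤ Y := by omega
  have y1 : X0 ≤ (Y : ℝ) := (Nat.le_ceil _).trans (by
    exact_mod_cast (((le_max_left _ _).trans (le_max_left _ _)).trans (le_max_left _ _)).trans hYY)
  have y2 : X1 ≤ (Y : ℝ) := (Nat.le_ceil _).trans (by
    exact_mod_cast (((le_max_right _ _).trans (le_max_left _ _)).trans (le_max_left _ _)).trans hYY)
  have y3 : Real.exp (3 / κ) ≤ (Y : ℝ) := (Nat.le_ceil _).trans (by
    exact_mod_cast (((le_max_left _ _).trans (le_max_right _ _)).trans (le_max_left _ _)).trans hYY)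
  have y4 : 3 ≤ Y := (((le_max_right _ _).trans (le_max_right _ _)).trans (le_max_left _ _)).trans hYY
  have y5 : M0 ≤ Nat.primeCounting Y := hZ0 Y ((le_max_right _ _).trans hYY)
  have y4r : (3 : ℝ) ≤ Y := by exact_mod_cast y4
  have y0 : (0 : ℝ) < Y := by linarith
  have l1 : 3 / κ ≤ Real.log Y := by
    rw [Real.le_log_iff_exp_le y0]; exact y3
  have l0 : 0 < Real.log Y := lt_of_lt_of_le (by positivity) l1
  have l2 : 3 ≤ κ * Real.log Y := by
    rw [div_le_iff₀ k0] at l1; linarith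
  have l3 : Real.log Y ≤ Y := (Real.log_le_sub_one_of_pos y0).trans (by linarith)
  have n1 : (2 : ℝ) * Y ≤ N := by
    have : 2 * Y ≤ N := by omega
    exact_mod_cast this
  have n2 : (N : ℝ) ≤ 3 * Y := by
    have : N ≤ 3 * Y := by omega
    exact_mod_cast this
  have n3 : Real.log N ≤ 2 * Real.log Y := by
    have h3 : (N : ℝ) ≤ (Y : ℝ) ^ 2 := n2.trans (by nlinarith)
    have h4 := Real.log_le_log (by linarith) h3
    rw [Real.log_pow] at h4
    exact_mod_cast h4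
  have n4 : 0 ≤ Real.log N := Real.log_nonneg (by linarith)
  have hfl : ⌊(Y : ℝ)⌋₊ = Y := Nat.floor_natCast Y
  have c1 := hclose Y κ y1 k0
  rw [hfl] at c1
  have c2 := (hX1 Y y2).1
  rw [hfl] at c2
  have c3 := hM0 _ y5
  have p0 : (0 : ℝ) ≤ Nat.primeCounting Y := Nat.cast_nonneg _
  have m := lem Y N (κ * Real.log Y) (κ / 24 * Real.log N) (by positivity)
    (by nlinarith) (c1.trans (by nlinarith)) c3 (by positivity)
  refine le_trans ?_ m
  have e1 : κ / 24 * Real.log N ≤ κ * Real.log Y / 12 := by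
    have := mul_le_mul_of_nonneg_left n3 (show 0 ≤ κ / 24 by positivity)
    linarith
  have e2 : κ * Real.log Y / 2 ≤ κ * Real.log Y - κ / 24 * Real.log N - 1 := by linarith
  have e3 : (Y : ℝ) ≤ 2 * Nat.primeCounting Y * Real.log Y := by
    rw [div_le_iff₀ l0] at c2; exact c2
  calc κ / 24 * (N : ℝ) ≤ κ / 24 * (3 * Y) := mul_le_mul_of_nonneg_left n2 (by positivity)
    _ = κ / 8 * Y := by ring
    _ ≤ κ / 8 * (2 * Nat.primeCounting Y * Real.log Y) :=
        mul_le_mul_of_nonneg_left e3 (by positivity)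
    _ = (Nat.primeCounting Y / 2 : ℝ) * (κ * Real.log Y / 2) := by ring
    _ ≤ (Nat.primeCounting Y / 2 : ℝ) * (κ * Real.log Y - κ / 24 * Real.log N - 1) :=
        mul_le_mul_of_nonneg_left e2 (by positivity)

end MPb8808f
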